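import Mathlib
import Pool.Agent.T6.H3.SA.C

/-!
# MP_aa036a_co: the number of permutations which strongly avoid `321` and `1342`
-/

set_option autoImplicit false

namespace Pool.Agent.Results.MP_aa036a_co.FibonacciFormula

open Equiv Pool.Agent.T6.H3.SA

/-- the permutation `π` has an occurrence of the pattern with the word `τ` -/
def Contains {m n : ℕ} (τ : Fin m → ℕ) (π : Perm (Fin n)) : Prop :=
  ∃ f : Fin m → Fin n, StrictMono f ∧ ∀ j k, π (f j) < π (f k) ↔ τ j < τ k

/-- both `π` and `π²` avoid `321` and `1342` -/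
def StronglyAvoids {n : ℕ} (π : Perm (Fin n)) : Prop :=
  (¬ Contains ![3, 2, 1] π ∧ ¬ Contains ![1, 3, 4, 2] π) ∧
    ¬ Contains ![3, 2, 1] (π * π) ∧ ¬ Contains ![1, 3, 4, 2] (π * π)

/-- the permutation of `ℕ` which continues `π` -/
def toN {n : ℕ} (π : Perm (Fin n)) : Perm ℕ where
  toFun i := if h : i < n then π ⟨i, h⟩ else i
  invFun i := if h : i < n then π.symm ⟨i, h⟩ else i
  left_inv i := by
    by_cases h : i < n
    · simp [h]
    · simp [h]
  right_inv i := by
    by_cases h : i < n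
    · simp [h]
    · simp [h]

lemma toN_lt {n : ℕ} (π : Perm (Fin n)) {i : ℕ} (h : i < n) : toN π i = π ⟨i, h⟩ := by
  show (if h : i < n then (π ⟨i, h⟩ : ℕ) else i) = _
  rw [dif_pos h]

lemma toN_ge {n : ℕ} (π : Perm (Fin n)) {i : ℕ} (h : n ≤ i) : toN π i = i := by
  show (if h : i < n then (π ⟨i, h⟩ : ℕ) else i) = _
  rw [dif_neg (by omega)]

lemma toN_fin {n : ℕ} (π : Perm (Fin n)) (i : Fin n) : toN π i = π i := toN_lt π i.2

lemma toN_sq {n : ℕ} (π : Perm (Fin n)) : (fun i => toN π (toN π i)) = toN (π * π) := by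
  funext i
  rcases Nat.lt_or_ge i n with h | h
  · rw [toN_lt π h, toN_fin, toN_lt _ h]; rfl
  · rw [toN_ge π h, toN_ge π h, toN_ge _ h]

lemma toN_inj {n : ℕ} : Function.Injective (toN (n := n)) := by
  intro a b h
  ext i
  rw [← toN_fin, ← toN_fin, h]

lemma cont3 {n : ℕ} (π : Perm (Fin n)) : Contains ![3, 2, 1] π ↔ P3 (toN π) := by
  constructor
  · rintro ⟨f, hf, h⟩
    refine ⟨f 0, f 1, f 2, hf (by decide), hf (by decide), ?_, ?_⟩
    · rw [toN_fin, toN_fin]
      exact (h 2 1).2 (by decide)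
    · rw [toN_fin, toN_fin]
      exact (h 1 0).2 (by decide)
  · rintro ⟨i, j, k, hij, hjk, h1, h2⟩
    have hk : k < n := P3_lt (fun _ h => toN_ge π h) (low fun _ h => toN_ge π h) hjk h1
    rw [toN_lt π hk, toN_lt π (hjk.trans hk)] at h1
    rw [toN_lt π (hjk.trans hk), toN_lt π (hij.trans (hjk.trans hk))] at h2
    have A : π ⟨k, hk⟩ < π ⟨j, hjk.trans hk⟩ := h1
    have B : π ⟨j, hjk.trans hk⟩ < π ⟨i, hij.trans (hjk.trans hk)⟩ := h2
    have C := A.trans B
    refine ⟨![⟨i, hij.trans (hjk.trans hk)⟩, ⟨j, hjk.trans hk⟩, ⟨k, hk⟩], ?_, ?_⟩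
    · intro a b hab
      fin_cases a <;> fin_cases b <;> first
        | exact absurd hab (by decide)
        | exact hij
        | exact hjk
        | exact hij.trans hjk
    · intro a b
      fin_cases a <;> fin_cases b <;> simp [A, B, C, A.le, B.le, C.le]

lemma cont4 {n : ℕ} (π : Perm (Fin n)) : Contains ![1, 3, 4, 2] π ↔ P4 (toN π) := by
  constructor
  · rintro ⟨f, hf, h⟩
    refine ⟨f 0, f 1, f 2, f 3, hf (by decide), hf (by decide), hf (by decide), ?_, ?_, ?_⟩
    · rw [toN_fin, toN_fin]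
      exact (h 0 3).2 (by decide)
    · rw [toN_fin, toN_fin]
      exact (h 3 1).2 (by decide)
    · rw [toN_fin, toN_fin]
      exact (h 1 2).2 (by decide)
  · rintro ⟨i, j, k, l, hij, hjk, hkl, h1, h2, h3⟩
    have hl : l < n := P3_lt (fun _ h => toN_ge π h) (low fun _ h => toN_ge π h)
      (hjk.trans hkl) h2
    rw [toN_lt π (show i < n by omega), toN_lt π hl] at h1
    rw [toN_lt π hl, toN_lt π (show j < n by omega)] at h2
    rw [toN_lt π (show j < n by omega), toN_lt π (show k < n by omega)] at h3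
    have A : π ⟨i, by omega⟩ < π ⟨l, hl⟩ := h1
    have B : π ⟨l, hl⟩ < π ⟨j, by omega⟩ := h2
    have C : π ⟨j, by omega⟩ < π ⟨k, by omega⟩ := h3
    have D := A.trans B
    have E := B.trans C
    have G := A.trans E
    refine ⟨![⟨i, by omega⟩, ⟨j, by omega⟩, ⟨k, by omega⟩, ⟨l, hl⟩], ?_, ?_⟩
    · intro a b hab
      fin_cases a <;> fin_cases b <;> first
        | exact absurd hab (by decide)
        | exact hij
        | exact hjk
        | exact hkl
        | exact hij.trans hjk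
        | exact hjk.trans hkl
        | exact hij.trans (hjk.trans hkl)
    · intro a b
      fin_cases a <;> fin_cases b <;> simp [A, B, C, D, E, G, A.le, B.le, C.le, D.le, E.le, G.le]

lemma mem_iff {n : ℕ} (π : Perm (Fin n)) : toN π ∈ S n ↔ StronglyAvoids π := by
  unfold StronglyAvoids
  rw [cont3, cont4, cont3, cont4, ← toN_sq]
  exact ⟨fun h => ⟨⟨h.2.1, h.2.2.1⟩, h.2.2.2⟩, fun h => ⟨fun _ hi => toN_ge π hi, h.1.1, h.1.2, h.2⟩⟩

lemma exists_toN {n : ℕ} {σ : Perm ℕ} (hσ : ∀ i, n ≤ i → σ i = i) :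
    ∃ π : Perm (Fin n), toN π = σ := by
  have h1 := low hσ
  have h2 : ∀ i, n ≤ i → σ.symm i = i := fun i hi => by rw [symm_apply_eq, hσ i hi]
  have h3 := low (π := σ.symm) h2
  refine ⟨⟨fun i => ⟨σ i, h1 i i.2⟩, fun i => ⟨σ.symm i, h3 i i.2⟩, fun i => ?_, fun i => ?_⟩, ?_⟩
  · simp
  · simp
  · ext i
    rcases Nat.lt_or_ge i n with h | h
    · rw [toN_lt _ h]; rfl
    · rw [toN_ge _ h, hσ i h]

lemma card_eq (n : ℕ) : Nat.card {π : Perm (Fin n) // StronglyAvoids π} = (S n).ncard := by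
  have h : S n = toN '' {π : Perm (Fin n) | StronglyAvoids π} := by
    ext σ
    constructor
    · intro hσ
      obtain ⟨π, rfl⟩ := exists_toN hσ.1
      exact ⟨π, (mem_iff π).1 hσ, rfl⟩
    · rintro ⟨π, hπ, rfl⟩
      exact (mem_iff π).2 hπ
  rw [h, Set.ncard_image_of_injective _ toN_inj]
  rfl

/-- **Theorem.** For every `n ≥ 1` exactly `2 F_{n+2} - n - 2` permutations of `n` letters strongly
avoid `321` and `1342`. -/
theorem result : ∀ n : ℕ, 1 ≤ n →
    (Nat.card {π : Perm (Fin n) // StronglyAvoids π} : ℤ) = 2 * (Nat.fib (n + 2) : ℤ) - n - 2 := by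
  intro n hn
  obtain ⟨m, rfl⟩ : ∃ m, n = m + 1 := ⟨n - 1, by omega⟩
  rw [card_eq]
  have h := (S_card m).1
  have h' : Nat.fib (m + 1 + 2) = Nat.fib (m + 3) := rfl
  rw [h']
  push_cast
  zify at h
  linarith

end Pool.Agent.Results.MP_aa036a_co.FibonacciFormula
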